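import Mathlib
import Pool.Agent.Lib.MP_358b54_lc.Levels
import Pool.Agent.Lib.MP_358b54_lc.Ranking

/-!
# Exact EFX when the rankings of the goods agree up to disagreements inside small levels
-/

set_option autoImplicit false

namespace Pool.Agent.Results.MP_358b54_lc.CoarseRanking

open Finset Pool.Agent.Lib.MP_358b54_lc Pool.Agent.Lib.MP_358b54_lc.Levels

/-- `R` is the set of all agents or of all agents but one; the goods outside `D` are divided into
levels `l g = 0, 1, 2, ...`, and every agent in `R` values each of these goods at least as much as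
each good of a later level. Nothing is assumed about the values inside a level, about the goods in
`D` and about the agent outside `R`; but if there is such an agent, then the level `0` has at most
`n` goods. Then there is an exact EFX partial allocation with the goods of `D` unallocated, in which
an agent outside `R` envies nobody, such that for every level with unallocated goods: if there are
`m` goods and `p ≥ 1` unallocated goods in the level, then `2 p ≤ m`, and even `2 p < m` if `R` is
the set of all agents, and even `n + 2 p < m` for the level `0`. -/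
theorem result (n : ℕ) (hn : 1 ≤ n) (M : Type) [Fintype M] [DecidableEq M] (v : Fin n → M → ℝ)
    (hv : ∀ i g, 0 ≤ v i g) (R : Finset (Fin n)) (hR : ∀ i j, i ∉ R → j ∉ R → i = j)
    (D : Finset M) (l : M → ℕ)
    (hl : ∀ i ∈ R, ∀ g h, g ∉ D → h ∉ D → l g < l h → v i h ≤ v i g)
    (h0 : R = univ ∨ (lev l D 0).card ≤ n) :
    ∃ A : Fin n → Finset M, IsPartial A ∧ IsEFX v A ∧ D ⊆ pool A ∧
      (∀ i, i ∉ R → ∀ j, val v i (A j) ≤ val v i (A i)) ∧
      ∀ k, (pool A ∩ lev l D k).Nonempty →
        2 * (pool A ∩ lev l D k).card ≤ (lev l D k).card ∧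
        (R = univ → 2 * (pool A ∩ lev l D k).card < (lev l D k).card) ∧
        (k = 0 → n + 2 * (pool A ∩ lev l D k).card < (lev l D k).card) := by
  classical
  have : Nonempty (Fin n) := ⟨⟨0, by omega⟩⟩
  -- the first level
  obtain ⟨X, hX, hX0, hXc⟩ : ∃ X : Fin n → Finset M, Block.Inv v (fun i => i ∈ R) X ∧
      (∀ i, X i ⊆ lev l D 0) ∧ ((lev l D 0 \ univ.biUnion X).Nonempty →
        n + 2 * (lev l D 0 \ univ.biUnion X).card < (lev l D 0).card) := by
    by_cases hRu : R = univ
    · obtain ⟨X, h1, h2, h3, h4⟩ := base_all hv (lev l D 0)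
      refine ⟨X, ⟨h1, fun i _ j g hg => h2 i j g hg, fun i hi => ?_⟩, h3, fun hne => ?_⟩
      · exact absurd (hRu ▸ Finset.mem_univ i) hi
      · have h5 := h4 hne
        rwa [Fintype.card_fin] at h5
    · obtain ⟨b, hb⟩ : ∃ b, b ∉ R := by
        by_contra hcon
        push Not at hcon
        exact hRu (Finset.eq_univ_iff_forall.2 hcon)
      have hbR : ∀ i, i ∈ R ↔ i ≠ b := by
        intro i
        constructor
        · rintro hi rfl
          exact hb hi
        · intro hi
          by_contra hcon
          exact hi (hR i b hcon hb)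
      obtain ⟨X, h1, h2, h3, h4⟩ := Ranking.base_inv hv b (lev l D 0) (by
        rw [Fintype.card_fin]
        exact h0.resolve_left hRu)
      refine ⟨X, ⟨h1, fun i hi j g hg => h3 i ((hbR i).1 hi) j g hg, fun i hi j => ?_⟩,
        fun i g hg => ?_, fun hne => ?_⟩
      · have hib : i = b := hR i b hi hb
        rw [hib]
        exact h4 j
      · rw [← h2]
        exact Finset.mem_biUnion.2 ⟨i, Finset.mem_univ _, hg⟩
      · rw [h2, Finset.sdiff_self] at hne
        exact absurd hne Finset.not_nonempty_empty
  obtain ⟨A, hA1, hA2, hA3, hA4⟩ := levels hv R hR D l hl hX hX0 (univ.sup l)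
  have hpool : ∀ k, pool A ∩ lev l D k = lev l D k \ univ.biUnion A := by
    intro k
    unfold pool
    ext g
    simp only [Finset.mem_inter, Finset.mem_sdiff, Finset.mem_univ, true_and]
    tauto
  refine ⟨A, hA1.1, fun i j g hg => ?_, fun g hg => ?_, hA1.2.2, fun k hk => ?_⟩
  · by_cases hi : i ∈ R
    · exact hA1.2.1 i hi j g hg
    · exact (val_mono hv i (Finset.erase_subset _ _)).trans (hA1.2.2 i hi j)
  · rw [mem_pool]
    intro i hi
    exact (hA2 i g hi).1 hg
  · rw [hpool] at hk ⊢
    rcases Nat.eq_zero_or_pos k with rfl | hkpos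
    · rw [hA3] at hk ⊢
      have h5 := hXc hk
      exact ⟨by omega, fun _ => by omega, fun _ => h5⟩
    · have hle : k ≤ univ.sup l := by
        obtain ⟨g, hg⟩ := hk
        have hgk : l g = k := (mem_lev.1 (Finset.mem_sdiff.1 hg).1).2
        exact hgk ▸ Finset.le_sup (f := l) (Finset.mem_univ g)
      have h5 := hA4 k hkpos hle
      exact ⟨h5.1, fun h => h5.2 h hk, fun h => absurd h (by omega)⟩

end Pool.Agent.Results.MP_358b54_lc.CoarseRanking
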