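import Mathlib
import Pool.Agent.Lib.MP_358b54_lc.MomentSub
import Pool.Agent.Lib.MP_358b54_lc.TailG
import Pool.Agent.Lib.MP_358b54_lc.RatioBound
import Pool.Agent.Lib.MP_358b54_lc.Levels

/-!
# Exact EFX with few unallocated goods in terms of the moments of the demands

The goods are `E ⊕ C` where `C` is a common tail (goods which all agents rank last and in the same
order; `C` may be empty).
-/

set_option autoImplicit false

namespace Pool.Agent.Results.MP_358b54_lc.MomentBound

open Finset Pool.Agent.Lib.MP_358b54_lc Pool.Agent.Lib.MP_358b54_lc.Tail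

/-- For all additive valuations of the goods `E ⊕ C` with a common tail `C` there is an exact EFX
partial allocation with a pool `P ⊆ E` of fewer than `n` goods which no agent envies, with
`n + 2 |P| < |E|` if `P` is not empty, such that the demand `d(g)` of each good `g` of the pool, the
number of the different valuations (of `E`) which value `g` more than some other good of `E`, is at
least `1` and every set `R` of goods of the pool satisfies the following.
* If `R` is nonempty, then the sum of `1 / d(g)` over `g ∈ R` is at most `1 + log |R|`.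
* For every set `K` of agents and every `r ≥ 1`, the number of the goods of `R` is at most
  `L (k + r - 1) + ((r L)^r S)^(1/(r+1))`. Here `L = 1 + log |R|`, `k` is the number of the different
  valuations (of `E`) of the agents in `K`, and `S` is the number of the pairs of a good `g ∈ R` and a
  set of `r` different valuations of agents outside `K` each of which values `g` more than some other
  good of `E`.

Moreover, let `K`, `R` be sets of agents, `B ⊆ E` and `ρ ≥ 1` such that for the agents `i ∈ R` no
good of `E \ B` is worth more than `ρ` times a good of `E \ B` which is not one of the least valued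
goods of `E`. Then `|P| ≤ |B| + Λ (k + |B|) + √(Λ (ρ |E| + s))`, where `Λ = 1 + 2 log (2n)`, `k` is
the number of different valuations of `E` of the agents in `K` and `s` the number of pairs `(i, g)`,
`i ∉ K ∪ R`, `g ∈ E \ B`, such that `g` is not one of the least valued goods of `E` for `i`. -/
theorem result (n : ℕ) (hn : 1 ≤ n) (E C : Type) [Fintype E] [DecidableEq E] [Fintype C]
    [DecidableEq C] (v : Fin n → E ⊕ C → ℝ) (hv : ∀ i g, 0 ≤ v i g) (ht : IsTail v) :
    ∃ A : Fin n → Finset (E ⊕ C), IsPartial A ∧ IsEFX v A ∧
      (∀ i, val v i (pool A) ≤ val v i (A i)) ∧ (pool A).card < n ∧ (∀ c, Sum.inr c ∉ pool A) ∧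
      ((pool A).Nonempty → n + 2 * (pool A).card < Fintype.card E) ∧
      (∀ g, Sum.inl g ∈ pool A → 1 ≤ (rel (res v) g).card) ∧
      (∀ R : Finset E, (∀ g ∈ R, Sum.inl g ∈ pool A) →
        (R.Nonempty → ∑ g ∈ R, (1 : ℝ) / (rel (res v) g).card ≤ 1 + Real.log R.card) ∧
        ∀ (K : Finset (Fin n)) (r : ℕ), 1 ≤ r →
          (R.card : ℝ) ≤ (1 + Real.log R.card) * (types (res v) K + r - 1) +
            ((r * (1 + Real.log R.card)) ^ r *
              ∑ g ∈ R, ((relOut (res v) K g).card.choose r : ℝ)) ^ (1 / (r + 1 : ℝ))) ∧
      ∀ (K R : Finset (Fin n)) (B : Finset E) (ρ : ℝ), 1 ≤ ρ →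
        (∀ i ∈ R, ∀ g ∈ above (res v) i, g ∉ B → ∀ h ∉ B, res v i h ≤ ρ * res v i g) →
        ((pool A).card : ℝ) ≤ B.card +
          (1 + 2 * Real.log (2 * n)) * (types (res v) K + B.card) +
          √((1 + 2 * Real.log (2 * n)) * (ρ * Fintype.card E +
            ∑ i ∈ univ \ (K ∪ R), ((above (res v) i \ B).card : ℝ))) := by
  classical
  have : Nonempty (Fin n) := ⟨⟨0, by omega⟩⟩
  have hres : ∀ i g, 0 ≤ res v i g := fun i g => hv i _
  obtain ⟨A₀, hA⟩ := exists_maxi (res v)
  obtain ⟨A, h1, h2, h3, h4, -⟩ := lift' v hv ht A₀ hA.par hA.efx (pool_le hA)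
  have hcard : (pool A).card = (pool A₀).card := by
    rw [h4, Finset.card_map]
  refine ⟨A, h1, h2, h3, ?_, ?_, ?_, fun g hg => ?_, fun R hR => ?_, fun K R B ρ hρ hratio => ?_⟩
  · rw [hcard]
    have h5 := pool_lt hres hA
    rwa [Fintype.card_fin] at h5
  · intro c hc
    rw [h4] at hc
    simp at hc
  · intro hne
    have hne' : (pool A₀).Nonempty := by
      rw [h4, Finset.map_nonempty] at hne
      exact hne
    have h5 := (Levels.count hres hA hne').1
    rw [hcard]
    rwa [Fintype.card_fin] at h5
  · rw [h4] at hg
    have h5 := rel_pos hres hA g (by simpa using hg)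
    exact_mod_cast h5
  · have hRP : R ⊆ pool A₀ := by
      intro g hg
      have h5 := hR g hg
      rw [h4] at h5
      simpa using h5
    exact ⟨fun h0 => Core_sub hres hA hRP h0, fun K r hr => moment_sub hres hA K hRP r hr⟩
  · have h := ratio_bound hres hA K R B ρ hρ hratio
    rw [hcard]
    rwa [Fintype.card_fin] at h

end Pool.Agent.Results.MP_358b54_lc.MomentBound
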