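import Mathlib
import Pool.Agent.Lib.MP_358b54_lc.Leximin

/-!
# Complete exact EFX allocations for nearly identical agents and one arbitrary agent

The agents other than `b` have monotone rescalings `φ i` of their valuations on a set `E` of goods
such that `φ i X < φ j (X ∪ {g})`: a bundle never looks as good to one of them as the bundle with
one more good looks to another one. They value the remaining goods less and rank them in the same
way. The agent `b` is arbitrary. Then there is a complete EFX allocation.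
-/

set_option autoImplicit false

namespace Pool.Agent.Results.MP_358b54_lc.NearIdentical

open Finset Pool.Agent.Lib.MP_358b54_lc

/-- Let `b` be an agent, about whom nothing is assumed, and let `E`, `D` be disjoint sets of goods;
the goods outside `E ∪ D` are called the tail. Suppose there are functions `φ i`, `i ≠ b`, on the
bundles `X`, `Y` of goods of `E`, with `φ i X ≤ φ i Y` whenever `v i X < v i Y`, and with
`φ i X < φ j (X ∪ {g})` for all `i, j ≠ b` and every good `g` of `E` which is not in `X`. Suppose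
that the agents `i ≠ b` value every good of `E` at least as much as every good of the tail, and
that they do not disagree about the order of two goods of the tail. Then there is an exact EFX
partial allocation whose unallocated goods are exactly the goods of `D`, and in which `b` envies
nobody. -/
theorem result (n : ℕ) (M : Type) [Fintype M] [DecidableEq M] (v : Fin n → M → ℝ)
    (hv : ∀ i g, 0 ≤ v i g) (b : Fin n) (E D : Finset M) (hED : Disjoint E D)
    (φ : Fin n → Finset M → ℝ)
    (hmono : ∀ i ≠ b, ∀ X ⊆ E, ∀ Y ⊆ E, val v i X < val v i Y → φ i X ≤ φ i Y)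
    (hcross : ∀ i ≠ b, ∀ j ≠ b, ∀ X ⊆ E, ∀ g ∈ E, g ∉ X → φ i X < φ j (insert g X))
    (htop : ∀ i ≠ b, ∀ g ∈ E, ∀ h, h ∉ E → h ∉ D → v i h ≤ v i g)
    (hrank : ∀ i ≠ b, ∀ j ≠ b, ∀ g, g ∉ E → g ∉ D → ∀ h, h ∉ E → h ∉ D →
      v i g < v i h → v j g ≤ v j h) :
    ∃ A : Fin n → Finset M, IsPartial A ∧ IsEFX v A ∧ pool A = D ∧
      ∀ j, val v b (A j) ≤ val v b (A b) := by
  classical
  obtain ⟨S, hS⟩ : ∃ S : Finset M, S = univ \ D := ⟨_, rfl⟩
  have hmem : ∀ g, g ∈ S \ E → g ∉ E ∧ g ∉ D := by
    intro g hg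
    rw [hS, Finset.mem_sdiff, Finset.mem_sdiff] at hg
    exact ⟨hg.2, hg.1.2⟩
  obtain ⟨A, h1, h2, h3, h4⟩ := Leximin.extend hv b E
    (Leximin.exists_inv v hv b E φ hmono hcross) S
    (fun g hg => by
      rw [hS, Finset.mem_sdiff]
      exact ⟨Finset.mem_univ _, Finset.disjoint_left.1 hED hg⟩)
    (fun i hi g hg h hh => htop i hi g hg h (hmem h hh).1 (hmem h hh).2)
    (fun i hi j hj g hg h hh => hrank i hi j hj g (hmem g hg).1 (hmem g hg).2 h (hmem h hh).1
      (hmem h hh).2)
  refine ⟨A, h1, fun i j g hg => ?_, ?_, h4⟩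
  · by_cases hi : i = b
    · subst hi
      exact (Finset.sum_le_sum_of_subset_of_nonneg (Finset.erase_subset _ _)
        fun g _ _ => hv i g).trans (h4 j)
    · exact h3 i hi j g hg
  · unfold pool
    rw [h2, hS]
    ext g
    simp

/-- A consequence: the first two hypotheses of `result` can be replaced by the following: `w` is a
set function which grows by at least `1` with each good of `E`, and for all agents `i ≠ b` a bundle
`Y` of goods of `E` is at least as good as `X` whenever `w Y` exceeds `w X` by more than `θ`, where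
`θ < 1`. -/
theorem common (n : ℕ) (M : Type) [Fintype M] [DecidableEq M] (v : Fin n → M → ℝ)
    (hv : ∀ i g, 0 ≤ v i g) (b : Fin n) (E D : Finset M) (hED : Disjoint E D) (w : Finset M → ℝ)
    (hw : ∀ X ⊆ E, ∀ g ∈ E, g ∉ X → w X + 1 ≤ w (insert g X))
    (θ : ℝ) (hθ : 0 ≤ θ) (hθ1 : θ < 1)
    (href : ∀ i ≠ b, ∀ X ⊆ E, ∀ Y ⊆ E, w X + θ < w Y → val v i X ≤ val v i Y)
    (htop : ∀ i ≠ b, ∀ g ∈ E, ∀ h, h ∉ E → h ∉ D → v i h ≤ v i g)
    (hrank : ∀ i ≠ b, ∀ j ≠ b, ∀ g, g ∉ E → g ∉ D → ∀ h, h ∉ E → h ∉ D →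
      v i g < v i h → v j g ≤ v j h) :
    ∃ A : Fin n → Finset M, IsPartial A ∧ IsEFX v A ∧ pool A = D ∧
      ∀ j, val v b (A j) ≤ val v b (A b) := by
  classical
  let s : Fin n → Finset M → Finset (Finset M) := fun i X =>
    univ.filter fun Y => Y = X ∨ (Y ⊆ E ∧ val v i Y < val v i X)
  have hs : ∀ i X, X ∈ s i X := fun i X =>
    Finset.mem_filter.2 ⟨Finset.mem_univ _, Or.inl rfl⟩
  refine result n M v hv b E D hED (fun i X => (s i X).sup' ⟨X, hs i X⟩ w) ?_ ?_ htop hrank
  · intro i hi X hX Y hY hlt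
    refine Finset.sup'_le _ _ fun Z hZ => Finset.le_sup' w ?_
    rw [Finset.mem_filter] at hZ ⊢
    refine ⟨Finset.mem_univ _, Or.inr ?_⟩
    rcases hZ.2 with h | h
    · rw [h]
      exact ⟨hX, hlt⟩
    · exact ⟨h.1, h.2.trans hlt⟩
  · intro i hi j hj X hX g hgE hg
    have h1 : (s i X).sup' ⟨X, hs i X⟩ w ≤ w X + θ := by
      refine Finset.sup'_le _ _ fun Z hZ => ?_
      rcases (Finset.mem_filter.1 hZ).2 with h | h
      · rw [h]
        linarith
      · by_contra hcon
        rw [not_le] at hcon
        have := href i hi X hX Z h.1 hcon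
        linarith [h.2]
    have h2 : w (insert g X) ≤ (s j (insert g X)).sup' ⟨_, hs j (insert g X)⟩ w :=
      Finset.le_sup' w (hs j (insert g X))
    have h3 := hw X hX g hgE hg
    show (s i X).sup' ⟨X, hs i X⟩ w < (s j (insert g X)).sup' ⟨_, hs j (insert g X)⟩ w
    linarith

end Pool.Agent.Results.MP_358b54_lc.NearIdentical
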