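import Mathlib
import Pool.Agent.Lib.MP_358b54_lc.BarrierC

/-!
# The Pareto strengthening fails: an undominated EFX allocation with `(2 n - 5) / 3` donated goods

For `n = 3 q + 1` agents there are positive normalised additive valuations and an exact EFX partial
allocation with `2 q - 1` unallocated goods which is the unique allocation of greatest social
welfare among all exact EFX partial allocations. In particular no other EFX partial allocation
weakly dominates it.
-/

set_option autoImplicit false

namespace Pool.Agent.Results.MP_358b54_lc.ParetoBarrier

open Finset Pool.Agent.Lib.MP_358b54_lc Pool.Agent.Lib.MP_358b54_lc.Barrier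

/-- For every `q ≥ 1` there are positive additive valuations of `3 q + 1` agents, with the same
total value for every agent, and an exact EFX partial allocation `A` which leaves exactly
`2 q - 1` goods unallocated, no agent preferring these goods to her bundle, such that every exact
EFX partial allocation whose sum of values is at least that of `A` is equal to `A`. -/
theorem result (q : ℕ) (hq : 1 ≤ q) :
    ∃ (M : Type) (_ : Fintype M) (_ : DecidableEq M) (v : Fin (3 * q + 1) → M → ℝ)
      (A : Fin (3 * q + 1) → Finset M),
      (∀ i g, 0 < v i g) ∧ (∀ i j, val v i univ = val v j univ) ∧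
      IsPartial A ∧ IsEFX v A ∧ (∀ i, val v i (pool A) ≤ val v i (A i)) ∧
      (pool A).card = 2 * q - 1 ∧
      ∀ B : Fin (3 * q + 1) → Finset M, IsPartial B → IsEFX v B →
        ∑ i, val v i (A i) ≤ ∑ i, val v i (B i) → B = A := by
  have : NeZero q := ⟨by omega⟩
  have hcard : Fintype.card (Ag q) = 3 * q + 1 := by
    have h3 : Fintype.card Role = 3 := rfl
    rw [Fintype.card_option, Fintype.card_prod, ZMod.card, h3]
  let e : Fin (3 * q + 1) ≃ Ag q := (Fintype.equivFinOfCardEq hcard).symm
  have hpool : pool (fun i => alloc q (e i)) = pool (alloc q) := by
    ext g
    simp only [pool, Finset.mem_sdiff, Finset.mem_univ, true_and, Finset.mem_biUnion, not_exists]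
    constructor
    · intro h i hi
      exact h (e.symm i) (by rwa [Equiv.apply_symm_apply])
    · intro h i
      exact h (e i)
  refine ⟨Good q, inferInstance, inferInstance, fun i => vr q (e i), fun i => alloc q (e i),
    fun i g => vr_pos _ _, ?_, ?_, ?_, ?_, ?_, ?_⟩
  · intro i j
    change val (vr q) (e i) univ = val (vr q) (e j) univ
    rw [val_vr, val_vr, total, total]
  · intro i j hij
    exact alloc_disj _ _ fun h => hij (e.injective h)
  · intro i j g hg
    exact alloc_efx (e i) (e j) g hg
  · intro i
    rw [hpool]
    exact pool_val (e i)
  · rw [hpool]
    exact pool_card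
  · intro B hB hE hW
    have h1 : (fun x => B (e.symm x)) = alloc q := by
      refine unique (fun x y hxy => hB _ _ fun h => hxy (e.symm.injective h)) ?_ ?_
      · intro x y g hg
        refine efx_int (T := B (e.symm y)) (T' := B (e.symm x)) ?_
        have h := hE (e.symm x) (e.symm y) g hg
        change val (vr q) (e (e.symm x)) _ ≤ val (vr q) (e (e.symm x)) _ at h
        rwa [Equiv.apply_symm_apply] at h
      · rw [← sum_alloc]
        refine welfare_int (S := fun x => B (e.symm x))
          (fun x y hxy => hB _ _ fun h => hxy (e.symm.injective h)) ?_
        rw [← Equiv.sum_comp e, ← Equiv.sum_comp e fun x => val (vr q) x (B (e.symm x))]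
        simp only [Equiv.symm_apply_apply]
        exact hW
    funext i
    have h2 := congrFun h1 (e i)
    simpa only [Equiv.symm_apply_apply] using h2

end Pool.Agent.Results.MP_358b54_lc.ParetoBarrier
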